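import Pool.Agent.Helper47.PW.APX
import Pool.Agent.Helper95.PM.Stmts

set_option autoImplicit false

namespace Pool.Agent.Helper95.PW

open MeasureTheory Filter

lemma apxm_sum {n N : ℕ} (X : Fin N → R3) (Z : Fin N → ℝ) (π : Equiv.Perm (Fin n)) (x : Cf n) :
    ∑ k, pot X Z (apx_L π x k) = ∑ k, pot X Z (x k) :=
  Equiv.sum_comp π (fun k => pot X Z (x k))

lemma apxm_pot_meas {n N : ℕ} (X : Fin N → R3) (Z : Fin N → ℝ) :
    Measurable fun x : Cf n => ∑ k, pot X Z (x k) := by
  unfold pot
  apply Finset.measurable_fun_sum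
  intro k _
  apply Finset.measurable_fun_sum
  intro j _
  exact measurable_const.div
    ((apx_nr_cont.comp ((continuous_apply k).sub continuous_const)).measurable)

lemma apxm_hm_A {n N : ℕ} (X : Fin N → R3) (Z : Fin N → ℝ) (E : ℝ) (u : Wf n) (hu : ∀ s, apx_CS (u s)) (s : Fin n → Fin 2)
    (x : Cf n) :
    hmM X Z (apx_U u s) x - E * apx_U u s x =
      apx_A (fun _ s x => hmM X Z (u s) x - E * u s x) s x := by
  have h1 : ∀ (k : Fin n) (i : Fin 3), dv k i (dv k i (apx_U u s)) x =
      apx_A (fun π s => dv (π.symm k) i (dv (π.symm k) i (u s))) s x := by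
    intro k i
    unfold apx_U
    rw [apx_dv_A _ (fun _ s => hu s), apx_dv_A _ (fun π s => (hu s).dv _ _)]
  unfold hmM
  simp only [h1]
  unfold apx_U apx_A
  have e1 : ∀ c : ℝ, ∀ f g : Equiv.Perm (Fin n) → ℝ, c * ∑ π, f π + c * ∑ π, g π =
      c * ∑ π, (f π + g π) := by
    intro c f g
    rw [Finset.sum_add_distrib]
    ring
  have e2 : ∑ k : Fin n, ∑ i : Fin 3, ((n.factorial : ℝ))⁻¹ * ∑ π : Equiv.Perm (Fin n),
      ((Equiv.Perm.sign π : ℤ) : ℝ) *
        dv (π.symm k) i (dv (π.symm k) i (u fun i => s (π i))) (apx_L π x) =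
      ((n.factorial : ℝ))⁻¹ * ∑ π : Equiv.Perm (Fin n), ((Equiv.Perm.sign π : ℤ) : ℝ) *
        ∑ k : Fin n, ∑ i : Fin 3, dv k i (dv k i (u fun i => s (π i))) (apx_L π x) := by
    simp only [← Finset.mul_sum]
    congr 1
    have e3 : ∀ k : Fin n, ∑ i : Fin 3, ∑ π : Equiv.Perm (Fin n),
        ((Equiv.Perm.sign π : ℤ) : ℝ) *
          dv (π.symm k) i (dv (π.symm k) i (u fun i => s (π i))) (apx_L π x) =
        ∑ π : Equiv.Perm (Fin n), ∑ i : Fin 3, ((Equiv.Perm.sign π : ℤ) : ℝ) *
          dv (π.symm k) i (dv (π.symm k) i (u fun i => s (π i))) (apx_L π x) :=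
      fun k => Finset.sum_comm
    simp only [e3]
    rw [Finset.sum_comm]
    apply Finset.sum_congr rfl
    intro π _
    rw [Finset.mul_sum]
    rw [← Equiv.sum_comp π.symm (fun k => ((Equiv.Perm.sign π : ℤ) : ℝ) *
      ∑ i : Fin 3, dv k i (dv k i (u fun i => s (π i))) (apx_L π x))]
    apply Finset.sum_congr rfl
    intro k _
    rw [Finset.mul_sum]
  rw [e2]
  have e4 : ∀ π : Equiv.Perm (Fin n), rep (apx_L π x) - ∑ k, pot X Z (apx_L π x k) =
      rep x - ∑ k, pot X Z (x k) := by
    intro π
    rw [apx_rep, apxm_sum]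
  simp only [e4, mul_sub, mul_add, mul_neg, Finset.sum_add_distrib, Finset.sum_sub_distrib,
    Finset.sum_neg_distrib, Finset.mul_sum]
  have e5 : ∀ c f g : ℝ, c * (f * g) = f * (c * g) := by intros; ring
  ring_nf

/-- the constant in Hardy's inequality -/
noncomputable def apxm_C (n : ℕ) {N : ℕ} (Z : Fin N → ℝ) : ℝ :=
  8 * (n : ℝ) ^ 3 + 8 * n * N * ∑ j, Z j ^ 2

lemma apxm_C_nonneg (n : ℕ) {N : ℕ} (Z : Fin N → ℝ) : 0 ≤ apxm_C n Z := by
  unfold apxm_C
  have : 0 ≤ ∑ j, Z j ^ 2 := Finset.sum_nonneg fun j _ => sq_nonneg _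
  positivity

/-- Hardy's inequality for the potential -/
lemma apxm_hardy (hA1 : ST_HA3) (hA2 : ST_HA2) {n N : ℕ} (X : Fin N → R3) (Z : Fin N → ℝ)
    {w : Cf n → ℝ} (hw : apx_CS w) :
    ∫⁻ x, ENNReal.ofReal (((rep x - ∑ k, pot X Z (x k)) * w x) ^ 2) ≤
      ENNReal.ofReal (apxm_C n Z * ∑ k, ∫ x, ∑ i, dv k i w x ^ 2) := by
  classical
  set D : Fin n → ℝ := fun k => ∫ x, ∑ i, dv k i w x ^ 2 with hD
  have hD0 : ∀ k, 0 ≤ D k := fun k => integral_nonneg fun x => Finset.sum_nonneg fun i _ => sq_nonneg _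
  let f1 : Fin n → Fin N → Cf n → ℝ := fun k j x => Z j ^ 2 * (w x ^ 2 / nr (x k - X j) ^ 2)
  let f2 : Fin n → Fin n → Cf n → ℝ := fun k l x =>
    if k < l then w x ^ 2 / nr (x k - x l) ^ 2 else 0
  have i1 : ∀ k j, Integrable (f1 k j) := fun k j => (hA1 n k (X j) w hw.1 hw.2).1.const_mul _
  have b1 : ∀ k j, ∫ x, f1 k j x ≤ Z j ^ 2 * (4 * D k) := fun k j => by
    simp only [f1]
    rw [integral_const_mul]
    exact mul_le_mul_of_nonneg_left (hA1 n k (X j) w hw.1 hw.2).2 (sq_nonneg _)
  have i2 : ∀ k l, Integrable (f2 k l) := by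
    intro k l
    by_cases h : k < l
    · simp only [f2, if_pos h]
      exact (hA2 n k l w h.ne hw.1 hw.2).1
    · simp only [f2, if_neg h]
      exact integrable_zero _ _ _
  have b2 : ∀ k l, ∫ x, f2 k l x ≤ 4 * D k := by
    intro k l
    by_cases h : k < l
    · simp only [f2, if_pos h]
      exact (hA2 n k l w h.ne hw.1 hw.2).2
    · simp only [f2, if_neg h, integral_zero]
      have := hD0 k
      linarith
  let F : Cf n → ℝ := fun x => 2 * (n : ℝ) ^ 2 * (∑ k, ∑ l, f2 k l x) +
    2 * ((n : ℝ) * N) * ∑ k, ∑ j, f1 k j x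
  have hpt : ∀ x, ((rep x - ∑ k, pot X Z (x k)) * w x) ^ 2 ≤ F x := by
    intro x
    have g1 : ((∑ k, pot X Z (x k)) * w x) ^ 2 ≤ (n : ℝ) * N * ∑ k, ∑ j, f1 k j x := by
      rw [Finset.sum_mul]
      have h := sq_sum_le_card_mul_sum_sq (s := (Finset.univ : Finset (Fin n)))
        (f := fun k => pot X Z (x k) * w x)
      rw [Finset.card_univ, Fintype.card_fin] at h
      refine h.trans ?_
      rw [mul_assoc]
      apply mul_le_mul_of_nonneg_left _ (Nat.cast_nonneg _)
      rw [Finset.mul_sum]
      apply Finset.sum_le_sum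
      intro k _
      unfold pot
      rw [Finset.sum_mul]
      have h' := sq_sum_le_card_mul_sum_sq (s := (Finset.univ : Finset (Fin N)))
        (f := fun j => Z j / nr (x k - X j) * w x)
      rw [Finset.card_univ, Fintype.card_fin] at h'
      refine h'.trans (le_of_eq ?_)
      congr 1
      apply Finset.sum_congr rfl
      intro j _
      simp only [f1]
      rw [mul_pow, div_pow]
      ring
    have g2 : (rep x * w x) ^ 2 ≤ (n : ℝ) ^ 2 * ∑ k, ∑ l, f2 k l x := by
      unfold rep
      rw [Finset.sum_mul]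
      have h := sq_sum_le_card_mul_sum_sq (s := (Finset.univ : Finset (Fin n)))
        (f := fun k => (∑ l, if k < l then 1 / nr (x k - x l) else 0) * w x)
      rw [Finset.card_univ, Fintype.card_fin] at h
      refine h.trans ?_
      rw [pow_two, mul_assoc]
      apply mul_le_mul_of_nonneg_left _ (Nat.cast_nonneg _)
      rw [Finset.mul_sum]
      apply Finset.sum_le_sum
      intro k _
      rw [Finset.sum_mul]
      have h' := sq_sum_le_card_mul_sum_sq (s := (Finset.univ : Finset (Fin n)))
        (f := fun l => (if k < l then 1 / nr (x k - x l) else 0) * w x)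
      rw [Finset.card_univ, Fintype.card_fin] at h'
      refine h'.trans (le_of_eq ?_)
      congr 1
      apply Finset.sum_congr rfl
      intro l _
      simp only [f2]
      by_cases hkl : k < l
      · rw [if_pos hkl, if_pos hkl, mul_pow, div_pow, one_pow]
        ring
      · rw [if_neg hkl, if_neg hkl]
        ring
    have g3 : ((rep x - ∑ k, pot X Z (x k)) * w x) ^ 2 ≤
        2 * (rep x * w x) ^ 2 + 2 * ((∑ k, pot X Z (x k)) * w x) ^ 2 := by
      have e : (rep x - ∑ k, pot X Z (x k)) * w x =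
          rep x * w x - (∑ k, pot X Z (x k)) * w x := by ring
      rw [e]
      nlinarith [sq_nonneg (rep x * w x + (∑ k, pot X Z (x k)) * w x)]
    simp only [F]
    linarith
  have hFi : Integrable F := by
    apply Integrable.add
    · exact (integrable_finsetSum _ fun k _ => integrable_finsetSum _ fun l _ => i2 k l).const_mul _
    · exact (integrable_finsetSum _ fun k _ => integrable_finsetSum _ fun j _ => i1 k j).const_mul _
  have hF0 : ∀ x, 0 ≤ F x := fun x => (sq_nonneg _).trans (hpt x)
  have hFint : ∫ x, F x ≤ apxm_C n Z * ∑ k, D k := by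
    have e1 : ∫ x, F x = 2 * (n : ℝ) ^ 2 * (∑ k, ∑ l, ∫ x, f2 k l x) +
        2 * ((n : ℝ) * N) * ∑ k, ∑ j, ∫ x, f1 k j x := by
      simp only [F]
      rw [integral_add
        ((integrable_finsetSum _ fun k _ => integrable_finsetSum _ fun l _ => i2 k l).const_mul _)
        ((integrable_finsetSum _ fun k _ => integrable_finsetSum _ fun j _ => i1 k j).const_mul _),
        integral_const_mul,
        integral_const_mul,
        integral_finsetSum _ (fun k _ => integrable_finsetSum _ fun j _ => i1 k j),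
        integral_finsetSum _ (fun k _ => integrable_finsetSum _ fun l _ => i2 k l)]
      congr 2
      · apply Finset.sum_congr rfl
        intro k _
        rw [integral_finsetSum _ (fun l _ => i2 k l)]
      · apply Finset.sum_congr rfl
        intro k _
        rw [integral_finsetSum _ (fun j _ => i1 k j)]
    rw [e1]
    have e2 : ∑ k, ∑ l, ∫ x, f2 k l x ≤ 4 * n * ∑ k, D k := by
      calc ∑ k, ∑ l, ∫ x, f2 k l x ≤ ∑ k, ∑ _l : Fin n, 4 * D k :=
            Finset.sum_le_sum fun k _ => Finset.sum_le_sum fun l _ => b2 k l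
        _ = 4 * n * ∑ k, D k := by
            rw [Finset.mul_sum]
            apply Finset.sum_congr rfl
            intro k _
            rw [Finset.sum_const, Finset.card_univ, Fintype.card_fin, nsmul_eq_mul]
            ring
    have e3 : ∑ k, ∑ j, ∫ x, f1 k j x ≤ (∑ j, Z j ^ 2) * (4 * ∑ k, D k) := by
      calc ∑ k, ∑ j, ∫ x, f1 k j x ≤ ∑ k, ∑ j, Z j ^ 2 * (4 * D k) :=
            Finset.sum_le_sum fun k _ => Finset.sum_le_sum fun j _ => b1 k j
        _ = (∑ j, Z j ^ 2) * (4 * ∑ k, D k) := by
            rw [Finset.mul_sum, Finset.mul_sum]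
            apply Finset.sum_congr rfl
            intro k _
            rw [Finset.sum_mul]
    have e4 : 2 * (n : ℝ) ^ 2 * (∑ k, ∑ l, ∫ x, f2 k l x) ≤
        2 * (n : ℝ) ^ 2 * (4 * n * ∑ k, D k) := mul_le_mul_of_nonneg_left e2 (by positivity)
    have e5 : 2 * ((n : ℝ) * N) * ∑ k, ∑ j, ∫ x, f1 k j x ≤
        2 * ((n : ℝ) * N) * ((∑ j, Z j ^ 2) * (4 * ∑ k, D k)) :=
      mul_le_mul_of_nonneg_left e3 (by positivity)
    have e6 : apxm_C n Z * ∑ k, D k = 2 * (n : ℝ) ^ 2 * (4 * n * ∑ k, D k) +
        2 * ((n : ℝ) * N) * ((∑ j, Z j ^ 2) * (4 * ∑ k, D k)) := by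
      unfold apxm_C
      ring
    rw [e6]
    linarith
  calc ∫⁻ x, ENNReal.ofReal (((rep x - ∑ k, pot X Z (x k)) * w x) ^ 2)
      ≤ ∫⁻ x, ENNReal.ofReal (F x) := lintegral_mono fun x => ENNReal.ofReal_le_ofReal (hpt x)
    _ = ENNReal.ofReal (∫ x, F x) :=
        (ofReal_integral_eq_lintegral_ofReal hFi (Eventually.of_forall hF0)).symm
    _ ≤ _ := ENNReal.ofReal_le_ofReal hFint

/-- the potential term -/
lemma apxm_pot (hA1 : ST_HA3) (hA2 : ST_HA2) {n N : ℕ} (X : Fin N → R3) (Z : Fin N → ℝ) (v : ℕ → Cf n → ℝ) (φ : Cf n → ℝ)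
    (g : Fin n → Fin 3 → Cf n → ℝ) (hv : ∀ j, apx_CS (v j)) (hφ : MemLp φ 2)
    (hg : ∀ k i, MemLp (g k i) 2) (hVφ : MemLp (fun x => (rep x - ∑ k, pot X Z (x k)) * φ x) 2)
    (hVv : ∀ j, MemLp (fun x => (rep x - ∑ k, pot X Z (x k)) * v j x) 2)
    (h : Tendsto (fun j => ∫ x, (v j x - φ x) ^ 2) atTop (nhds 0))
    (hd : ∀ k i, Tendsto (fun j => ∫ x, (dv k i (v j) x - g k i x) ^ 2) atTop (nhds 0)) (j : ℕ) :
    ∫ x, ((rep x - ∑ k, pot X Z (x k)) * (v j x - φ x)) ^ 2 ≤
      2 * apxm_C n Z * ∑ k, ∑ i, ∫ x, (dv k i (v j) x - g k i x) ^ 2 := by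
  obtain ⟨ns, hns, hae⟩ := apx_subseq v φ (fun j => (hv j).mem) hφ h
  set B : ℝ := 2 * apxm_C n Z * ∑ k, ∑ i, ∫ x, (dv k i (v j) x - g k i x) ^ 2 with hB
  have hB0 : 0 ≤ B := by
    have h1 := apxm_C_nonneg n Z
    have h2 : 0 ≤ ∑ k, ∑ i, ∫ x, (dv k i (v j) x - g k i x) ^ 2 :=
      Finset.sum_nonneg fun k _ => Finset.sum_nonneg fun i _ => integral_nonneg fun x => sq_nonneg _
    positivity
  have hVm : Measurable fun x : Cf n => rep x - ∑ k, pot X Z (x k) :=
    apx_rep_meas.sub (apxm_pot_meas X Z)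
  let c : ℕ → ℝ := fun m => 2 * apxm_C n Z * ∑ k, ∑ i, ∫ x, (dv k i (v m) x - g k i x) ^ 2
  have hc : Tendsto c atTop (nhds 0) := by
    have h1 : Tendsto (fun m => 2 * apxm_C n Z * ∑ k, ∑ i, ∫ x, (dv k i (v m) x - g k i x) ^ 2)
        atTop (nhds (2 * apxm_C n Z * ∑ _k : Fin n, ∑ _i : Fin 3, (0 : ℝ))) :=
      (tendsto_finsetSum _ fun k _ => tendsto_finsetSum _ fun i _ => hd k i).const_mul _
    simpa using h1
  have hstep : ∀ m, ∫⁻ x, ENNReal.ofReal (((rep x - ∑ k, pot X Z (x k)) * (v j x - v m x)) ^ 2) ≤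
      ENNReal.ofReal (B + c m) := by
    intro m
    refine (apxm_hardy hA1 hA2 X Z ((hv j).sub (hv m))).trans (ENNReal.ofReal_le_ofReal ?_)
    have e1 : ∀ k i x, dv k i (fun x => v j x - v m x) x = dv k i (v j) x - dv k i (v m) x := by
      intro k i x
      unfold dv
      rw [fderiv_fun_sub ((hv j).1.differentiable (by simp) x)
        ((hv m).1.differentiable (by simp) x)]
      rfl
    have m1 : ∀ k i, MemLp (fun x => dv k i (v j) x - g k i x) 2 := fun k i =>
      ((hv j).dv k i).mem.sub (hg k i)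
    have m2 : ∀ k i, MemLp (fun x => dv k i (v m) x - g k i x) 2 := fun k i =>
      ((hv m).dv k i).mem.sub (hg k i)
    have m3 : ∀ k i, MemLp (fun x => dv k i (v j) x - dv k i (v m) x) 2 := fun k i =>
      ((hv j).dv k i).mem.sub ((hv m).dv k i).mem
    have e2 : ∀ k, ∫ x, ∑ i, dv k i (fun x => v j x - v m x) x ^ 2 ≤
        ∑ i, (2 * ∫ x, (dv k i (v j) x - g k i x) ^ 2) +
        ∑ i, (2 * ∫ x, (dv k i (v m) x - g k i x) ^ 2) := by
      intro k
      simp only [e1]
      rw [integral_finsetSum _ fun i _ => (m3 k i).integrable_sq, ← Finset.sum_add_distrib]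
      apply Finset.sum_le_sum
      intro i _
      rw [← integral_const_mul, ← integral_const_mul, ← integral_add
        ((m1 k i).integrable_sq.const_mul 2) ((m2 k i).integrable_sq.const_mul 2)]
      apply integral_mono (m3 k i).integrable_sq
        (((m1 k i).integrable_sq.const_mul 2).add ((m2 k i).integrable_sq.const_mul 2))
      intro x
      simp only [Pi.add_apply]
      nlinarith [sq_nonneg ((dv k i (v j) x - g k i x) + (dv k i (v m) x - g k i x))]
    have h0 := apxm_C_nonneg n Z
    calc apxm_C n Z * ∑ k, ∫ x, ∑ i, dv k i (fun x => v j x - v m x) x ^ 2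
        ≤ apxm_C n Z * ∑ k, (∑ i, (2 * ∫ x, (dv k i (v j) x - g k i x) ^ 2) +
          ∑ i, (2 * ∫ x, (dv k i (v m) x - g k i x) ^ 2)) :=
          mul_le_mul_of_nonneg_left (Finset.sum_le_sum fun k _ => e2 k) h0
      _ = B + c m := by
          simp only [hB, c, Finset.sum_add_distrib, ← Finset.mul_sum]
          ring
  have hfatou : ∫⁻ x, ENNReal.ofReal (((rep x - ∑ k, pot X Z (x k)) * (v j x - φ x)) ^ 2) ≤
      ENNReal.ofReal B := by
    calc ∫⁻ x, ENNReal.ofReal (((rep x - ∑ k, pot X Z (x k)) * (v j x - φ x)) ^ 2)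
        = ∫⁻ x, liminf (fun m => ENNReal.ofReal
            (((rep x - ∑ k, pot X Z (x k)) * (v j x - v (ns m) x)) ^ 2)) atTop := by
          apply lintegral_congr_ae
          filter_upwards [hae] with x hx
          symm
          apply Tendsto.liminf_eq
          apply ENNReal.tendsto_ofReal
          exact ((tendsto_const_nhds.sub hx).const_mul _).pow 2
      _ ≤ liminf (fun m => ∫⁻ x, ENNReal.ofReal
            (((rep x - ∑ k, pot X Z (x k)) * (v j x - v (ns m) x)) ^ 2)) atTop := by
          apply lintegral_liminf_le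
          intro m
          exact ((hVm.mul ((hv j).1.continuous.sub (hv (ns m)).1.continuous).measurable).pow_const
            2).ennreal_ofReal
      _ ≤ liminf (fun m => ENNReal.ofReal (B + c (ns m))) atTop := by
          refine liminf_le_liminf (Eventually.of_forall fun m => hstep (ns m)) ?_ ?_ <;>
            isBoundedDefault
      _ = ENNReal.ofReal B := by
          apply Tendsto.liminf_eq
          apply ENNReal.tendsto_ofReal
          have := (hc.comp hns.tendsto_atTop).const_add B
          simpa using this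
  have hmem : MemLp (fun x => (rep x - ∑ k, pot X Z (x k)) * (v j x - φ x)) 2 := by
    have e : (fun x : Cf n => (rep x - ∑ k, pot X Z (x k)) * (v j x - φ x)) =
        (fun x => (rep x - ∑ k, pot X Z (x k)) * v j x) - fun x => (rep x - ∑ k, pot X Z (x k)) * φ x := by
      funext x
      simp only [Pi.sub_apply]
      ring
    rw [e]
    exact (hVv j).sub hVφ
  have h5 := ofReal_integral_eq_lintegral_ofReal hmem.integrable_sq
    (Eventually.of_forall fun x => sq_nonneg _)
  rw [← h5] at hfatou
  exact (ENNReal.ofReal_le_ofReal_iff hB0).mp hfatou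

lemma apxm_V_mem (hI : ST_INTM) {n N : ℕ} (X : Fin N → R3) (Z : Fin N → ℝ) {v : Cf n → ℝ} (hv : apx_CS v) :
    MemLp (fun x => (rep x - ∑ k, pot X Z (x k)) * v x) 2 := by
  have hc := hv.1.continuous.measurable
  have h := hI n N X Z v v hv.1 hv.2 hv.1 hv.2
  have h1 : MemLp (fun x => (∑ k, pot X Z (x k)) * v x) 2 :=
    (memLp_two_iff_integrable_sq ((apxm_pot_meas X Z).mul hc).aestronglyMeasurable).mpr h.2.2.1
  have h2 : MemLp (fun x => rep x * v x) 2 :=
    (memLp_two_iff_integrable_sq (apx_rep_meas.mul hc).aestronglyMeasurable).mpr h.2.2.2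
  have e : (fun x : Cf n => (rep x - ∑ k, pot X Z (x k)) * v x) =
      (fun x => rep x * v x) - fun x => (∑ k, pot X Z (x k)) * v x := by
    funext x
    simp only [Pi.sub_apply]
    ring
  rw [e]
  exact h2.sub h1

lemma apxm_hm_mem (hI : ST_INTM) {n N : ℕ} (X : Fin N → R3) (Z : Fin N → ℝ) (E : ℝ) {v : Cf n → ℝ} (hv : apx_CS v) :
    MemLp (fun x => hmM X Z v x - E * v x) 2 := by
  have h1 := apxm_V_mem hI X Z hv
  have h2 : MemLp (fun x => ∑ k, ∑ i, dv k i (dv k i v) x) 2 :=
    memLp_finsetSum _ fun k _ => memLp_finsetSum _ fun i _ => ((hv.dv k i).dv k i).mem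
  have e : (fun x : Cf n => hmM X Z v x - E * v x) =
      ((fun x => (rep x - ∑ k, pot X Z (x k)) * v x) - fun x => ∑ k, ∑ i, dv k i (dv k i v) x) -
        fun x => E * v x := by
    funext x
    simp only [Pi.sub_apply, hmM]
    ring
  rw [e]
  exact (h1.sub h2).sub (hv.mem.const_mul E)

/-- the residual of the average -/
lemma apxm_res_U (hI : ST_INTM) {n N : ℕ} (X : Fin N → R3) (Z : Fin N → ℝ) (E : ℝ) (u : Wf n) (hu : ∀ s, apx_CS (u s)) :
    resM X Z E (apx_U u) ≤ (n.factorial : ℝ) * resM X Z E u := by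
  unfold resM
  have e : (fun s x => hmM X Z (apx_U u s) x - E * apx_U u s x) =
      apx_A (fun _ s x => hmM X Z (u s) x - E * u s x) := by
    funext s x
    exact apxm_hm_A X Z E u hu s x
  rw [e]
  refine (apx_A_le _ fun π s => apxm_hm_mem hI X Z E (hu s)).trans (le_of_eq ?_)
  rw [Finset.sum_const, Finset.card_univ, Fintype.card_perm, Fintype.card_fin, nsmul_eq_mul]

/-- the residual of the approximation -/
lemma apxm_res (hA1 : ST_HA3) (hA2 : ST_HA2) (hI : ST_INTM) {n N : ℕ} (X : Fin N → R3) (Z : Fin N → ℝ) (E : ℝ) (φ : Wf n)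
    (G : Fin n → Fin 3 → Wf n) (S : Fin n → Fin 3 → Fin n → Fin 3 → Wf n) (u : ℕ → Wf n)
    (hφ : ∀ s, MemLp (φ s) 2) (hG : ∀ k i s, MemLp (G k i s) 2)
    (hS : ∀ k i l m s, MemLp (S k i l m s) 2) (hu : ∀ j s, apx_CS (u j s))
    (h0 : Tendsto (fun j => sq (fun s x => u j s x - φ s x)) atTop (nhds 0))
    (h1 : ∀ k i, Tendsto (fun j => sq (fun s x => dv k i (u j s) x - G k i s x)) atTop (nhds 0))
    (h2 : ∀ k i l m, Tendsto (fun j => sq (fun s x => dv k i (dv l m (u j s)) x - S k i l m s x))
      atTop (nhds 0))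
    (he : ∀ s, ∀ᵐ x : Cf n, -(∑ k, ∑ i, S k i k i s x) + (rep x - ∑ k, pot X Z (x k)) * φ s x =
      E * φ s x) :
    Tendsto (fun j => resM X Z E (u j)) atTop (nhds 0) := by
  have hV : ∀ s, MemLp (fun x => (rep x - ∑ k, pot X Z (x k)) * φ s x) 2 := by
    intro s
    have m1 : MemLp (fun x => E * φ s x + ∑ k, ∑ i, S k i k i s x) 2 :=
      ((hφ s).const_mul E).add
        (memLp_finsetSum _ fun k _ => memLp_finsetSum _ fun i _ => hS k i k i s)
    refine m1.ae_eq ?_
    filter_upwards [he s] with x hx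
    linarith
  have hs1 : ∀ s, Tendsto (fun j => ∫ x, (u j s x - φ s x) ^ 2) atTop (nhds 0) := fun s =>
    apx_one_tendsto (fun j s x => u j s x - φ s x) h0 s
  have hs2 : ∀ k i s, Tendsto (fun j => ∫ x, (dv k i (u j s) x - G k i s x) ^ 2) atTop (nhds 0) :=
    fun k i s => apx_one_tendsto (fun j s x => dv k i (u j s) x - G k i s x) (h1 k i) s
  have hs3 : ∀ k i s, Tendsto (fun j => ∫ x, (dv k i (dv k i (u j s)) x - S k i k i s x) ^ 2)
      atTop (nhds 0) := fun k i s =>
    apx_one_tendsto (fun j s x => dv k i (dv k i (u j s)) x - S k i k i s x) (h2 k i k i) s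
  -- the bound
  have hb : ∀ j, resM X Z E (u j) ≤ ∑ s,
      (9 * n * (∑ k, ∑ i, ∫ x, (dv k i (dv k i (u j s)) x - S k i k i s x) ^ 2) +
        3 * (2 * apxm_C n Z * ∑ k, ∑ i, ∫ x, (dv k i (u j s) x - G k i s x) ^ 2) +
        3 * E ^ 2 * ∫ x, (u j s x - φ s x) ^ 2) := by
    intro j
    unfold resM sq
    apply Finset.sum_le_sum
    intro s _
    have hp := apxm_pot hA1 hA2 X Z (fun j => u j s) (φ s) (fun k i => G k i s)
      (fun j => hu j s) (hφ s) (fun k i => hG k i s) (hV s)
      (fun j => apxm_V_mem hI X Z (hu j s)) (hs1 s) (fun k i => hs2 k i s) j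
    have m1 : ∀ k i, MemLp (fun x => dv k i (dv k i (u j s)) x - S k i k i s x) 2 := fun k i =>
      (((hu j s).dv k i).dv k i).mem.sub (hS k i k i s)
    have m2 : MemLp (fun x => (rep x - ∑ k, pot X Z (x k)) * (u j s x - φ s x)) 2 := by
      have e : (fun x : Cf n => (rep x - ∑ k, pot X Z (x k)) * (u j s x - φ s x)) =
          (fun x => (rep x - ∑ k, pot X Z (x k)) * u j s x) -
            fun x => (rep x - ∑ k, pot X Z (x k)) * φ s x := by
        funext x
        simp only [Pi.sub_apply]
        ring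
      rw [e]
      exact (apxm_V_mem hI X Z (hu j s)).sub (hV s)
    have m3 : MemLp (fun x => u j s x - φ s x) 2 := (hu j s).mem.sub (hφ s)
    have i1 : Integrable (fun x => ∑ k, ∑ i, (dv k i (dv k i (u j s)) x - S k i k i s x) ^ 2) :=
      integrable_finsetSum _ fun k _ => integrable_finsetSum _ fun i _ => (m1 k i).integrable_sq
    calc ∫ x, (hmM X Z (u j s) x - E * u j s x) ^ 2
        ≤ ∫ x, ((9 * n * ∑ k, ∑ i, (dv k i (dv k i (u j s)) x - S k i k i s x) ^ 2) +
          3 * ((rep x - ∑ k, pot X Z (x k)) * (u j s x - φ s x)) ^ 2 +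
          3 * E ^ 2 * (u j s x - φ s x) ^ 2) := by
          apply integral_mono_of_nonneg (Eventually.of_forall fun x => sq_nonneg _)
            (((i1.const_mul _).add (m2.integrable_sq.const_mul 3)).add
              (m3.integrable_sq.const_mul _))
          filter_upwards [he s] with x hx
          change (hmM X Z (u j s) x - E * u j s x) ^ 2 ≤
            (9 * n * ∑ k, ∑ i, (dv k i (dv k i (u j s)) x - S k i k i s x) ^ 2) +
            3 * ((rep x - ∑ k, pot X Z (x k)) * (u j s x - φ s x)) ^ 2 +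
            3 * E ^ 2 * (u j s x - φ s x) ^ 2
          have e1 : hmM X Z (u j s) x - E * u j s x =
              -(∑ k, ∑ i, (dv k i (dv k i (u j s)) x - S k i k i s x)) +
              (rep x - ∑ k, pot X Z (x k)) * (u j s x - φ s x) - E * (u j s x - φ s x) := by
            simp only [hmM, Finset.sum_sub_distrib]
            linear_combination hx
          have e2 : (∑ k, ∑ i, (dv k i (dv k i (u j s)) x - S k i k i s x)) ^ 2 ≤
              3 * n * ∑ k, ∑ i, (dv k i (dv k i (u j s)) x - S k i k i s x) ^ 2 := by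
            have f1 := sq_sum_le_card_mul_sum_sq (s := (Finset.univ : Finset (Fin n)))
              (f := fun k => ∑ i, (dv k i (dv k i (u j s)) x - S k i k i s x))
            rw [Finset.card_univ, Fintype.card_fin] at f1
            refine f1.trans ?_
            have f2 : ∀ k : Fin n, (∑ i, (dv k i (dv k i (u j s)) x - S k i k i s x)) ^ 2 ≤
                3 * ∑ i, (dv k i (dv k i (u j s)) x - S k i k i s x) ^ 2 := by
              intro k
              have f3 := sq_sum_le_card_mul_sum_sq (s := (Finset.univ : Finset (Fin 3)))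
                (f := fun i => (dv k i (dv k i (u j s)) x - S k i k i s x))
              rw [Finset.card_univ, Fintype.card_fin] at f3
              exact_mod_cast f3
            calc (n : ℝ) * ∑ k, (∑ i, (dv k i (dv k i (u j s)) x - S k i k i s x)) ^ 2
                ≤ (n : ℝ) * ∑ k, 3 * ∑ i, (dv k i (dv k i (u j s)) x - S k i k i s x) ^ 2 :=
                  mul_le_mul_of_nonneg_left (Finset.sum_le_sum fun k _ => f2 k)
                    (Nat.cast_nonneg _)
              _ = 3 * n * ∑ k, ∑ i, (dv k i (dv k i (u j s)) x - S k i k i s x) ^ 2 := by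
                  rw [← Finset.mul_sum]
                  ring
          have e3 : ∀ a b c : ℝ, (-a + b - c) ^ 2 ≤ 3 * a ^ 2 + 3 * b ^ 2 + 3 * c ^ 2 := by
            intro a b c
            nlinarith [sq_nonneg (a + b), sq_nonneg (a - c), sq_nonneg (b + c)]
          rw [e1]
          refine (e3 _ _ _).trans ?_
          have e4 : 3 * (E * (u j s x - φ s x)) ^ 2 = 3 * E ^ 2 * (u j s x - φ s x) ^ 2 := by ring
          rw [e4]
          linarith
      _ = 9 * n * (∑ k, ∑ i, ∫ x, (dv k i (dv k i (u j s)) x - S k i k i s x) ^ 2) +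
          3 * (∫ x, ((rep x - ∑ k, pot X Z (x k)) * (u j s x - φ s x)) ^ 2) +
          3 * E ^ 2 * ∫ x, (u j s x - φ s x) ^ 2 := by
          have i12 : Integrable (fun x =>
              (9 * n * ∑ k, ∑ i, (dv k i (dv k i (u j s)) x - S k i k i s x) ^ 2) +
              3 * ((rep x - ∑ k, pot X Z (x k)) * (u j s x - φ s x)) ^ 2) :=
            (i1.const_mul _).add (m2.integrable_sq.const_mul 3)
          rw [integral_add i12
            (m3.integrable_sq.const_mul _), integral_add (i1.const_mul _)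
            (m2.integrable_sq.const_mul 3), integral_const_mul, integral_const_mul,
            integral_const_mul, integral_finsetSum _ (fun k _ => integrable_finsetSum _ fun i _ =>
              (m1 k i).integrable_sq)]
          congr 3
          apply Finset.sum_congr rfl
          intro k _
          rw [integral_finsetSum _ fun i _ => (m1 k i).integrable_sq]
      _ ≤ _ := by
          have : 3 * (∫ x, ((rep x - ∑ k, pot X Z (x k)) * (u j s x - φ s x)) ^ 2) ≤
              3 * (2 * apxm_C n Z * ∑ k, ∑ i, ∫ x, (dv k i (u j s) x - G k i s x) ^ 2) :=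
            mul_le_mul_of_nonneg_left hp (by norm_num)
          linarith
  have hr0 : ∀ j, 0 ≤ resM X Z E (u j) := fun j => apx_sq_nonneg _
  refine squeeze_zero hr0 hb ?_
  have hlim : Tendsto (fun j => ∑ s,
      (9 * n * (∑ k, ∑ i, ∫ x, (dv k i (dv k i (u j s)) x - S k i k i s x) ^ 2) +
        3 * (2 * apxm_C n Z * ∑ k, ∑ i, ∫ x, (dv k i (u j s) x - G k i s x) ^ 2) +
        3 * E ^ 2 * ∫ x, (u j s x - φ s x) ^ 2)) atTop
      (nhds (∑ _s : Fin n → Fin 2, (9 * n * (∑ _k : Fin n, ∑ _i : Fin 3, (0 : ℝ)) +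
        3 * (2 * apxm_C n Z * ∑ _k : Fin n, ∑ _i : Fin 3, (0 : ℝ)) + 3 * E ^ 2 * 0))) := by
    apply tendsto_finsetSum
    intro s _
    apply Tendsto.add
    · apply Tendsto.add
      · exact (tendsto_finsetSum _ fun k _ => tendsto_finsetSum _ fun i _ => hs3 k i s).const_mul _
      · exact ((tendsto_finsetSum _ fun k _ => tendsto_finsetSum _ fun i _ =>
          hs2 k i s).const_mul _).const_mul _
    · exact (hs1 s).const_mul _
  simpa using hlim

theorem st_APXM (hA1 : ST_HA3) (hA2 : ST_HA2) (hI : ST_INTM) : ST_APXM := by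
  intro n N X Z E φ G hGr
  obtain ⟨S, u, hS, hSm, h0, h1, h2, he⟩ := hGr.eigen
  have hu : ∀ j s, apx_CS (u j s) := fun j s => hSm j s
  have hmφ : ∀ j s, MemLp (fun x => u j s x - φ s x) 2 := fun j s =>
    (hu j s).mem.sub (hGr.lp s)
  -- bounded second derivatives
  have hM : ∃ M : ℝ, ∀ j, dd (u j) ≤ M := by
    have hb : ∀ j, dd (u j) ≤ ∑ k, ∑ i, ∑ l, ∑ m,
        (2 * sq (fun s x => dv k i (dv l m (u j s)) x - S k i l m s x) +
          2 * sq (S k i l m)) := by
      intro j
      unfold dd
      refine Finset.sum_le_sum fun k _ => Finset.sum_le_sum fun i _ => Finset.sum_le_sum fun l _ =>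
        Finset.sum_le_sum fun m _ => ?_
      apply apx_tri (fun s x => dv k i (dv l m (u j s)) x - S k i l m s x) (S k i l m)
        (fun s => dv k i (dv l m (u j s)))
        (fun s => (((hu j s).dv l m).dv k i).mem.sub (hS k i l m s)) (fun s => hS k i l m s)
      intro s
      filter_upwards with x
      ring
    have ht : Tendsto (fun j => ∑ k, ∑ i, ∑ l, ∑ m,
        (2 * sq (fun s x => dv k i (dv l m (u j s)) x - S k i l m s x) +
          2 * sq (S k i l m))) atTop (nhds (∑ k, ∑ i, ∑ l, ∑ m,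
        (2 * 0 + 2 * sq (S k i l m)))) := by
      refine tendsto_finsetSum _ fun k _ => tendsto_finsetSum _ fun i _ =>
        tendsto_finsetSum _ fun l _ => tendsto_finsetSum _ fun m _ => ?_
      exact ((h2 k i l m).const_mul 2).add tendsto_const_nhds
    obtain ⟨M, hM⟩ := ht.bddAbove_range
    exact ⟨M, fun j => (hb j).trans (hM ⟨j, rfl⟩)⟩
  obtain ⟨M, hM⟩ := hM
  have hU : ∀ j s, apx_CS (apx_U (u j) s) := fun j s => apx_A_CS _ (fun _ s => hu j s) s
  have hsign : ∀ j, sq (fun s x => apx_U (u j) s x - φ s x) ≤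
      (n.factorial : ℝ) * sq (fun s x => u j s x - φ s x) := by
    intro j
    have e : sq (fun s x => apx_U (u j) s x - φ s x) =
        sq (apx_A (fun _ s x => u j s x - φ s x)) := by
      unfold sq
      apply Finset.sum_congr rfl
      intro s _
      apply integral_congr_ae
      filter_upwards [apx_U_sub (u j) φ hGr.anti s] with x hx
      rw [hx]
    rw [e]
    refine (apx_A_le _ fun π s => hmφ j s).trans (le_of_eq ?_)
    rw [Finset.sum_const, Finset.card_univ, Fintype.card_perm, Fintype.card_fin, nsmul_eq_mul]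
  have t0 : Tendsto (fun j => sq (fun s x => apx_U (u j) s x - φ s x)) atTop (nhds 0) := by
    refine squeeze_zero (fun j => apx_sq_nonneg _) hsign ?_
    simpa using h0.const_mul (n.factorial : ℝ)
  set K : ℝ := ((n : ℝ) * (3 * (n * (3 * n.factorial)))) with hK
  have hK0 : 0 ≤ K := by positivity
  have hddU : ∀ j, dd (apx_U (u j)) ≤ K * M := fun j =>
    (apx_dd_U (u j) (hu j)).trans (mul_le_mul_of_nonneg_left (hM j) hK0)
  -- the difference tends to zero
  let a : ℕ → ℝ := fun j => 2 * sq (fun s x => u j s x - φ s x) +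
    2 * sq (fun s x => apx_U (u j) s x - φ s x)
  have ha0 : ∀ j, 0 ≤ a j := fun j => by
    have h1 := apx_sq_nonneg (fun s x => u j s x - φ s x)
    have h2 := apx_sq_nonneg (fun s x => apx_U (u j) s x - φ s x)
    simp only [a]
    linarith
  have ta : Tendsto a atTop (nhds 0) := by
    have := (h0.const_mul 2).add (t0.const_mul 2)
    simpa using this
  set M' : ℝ := 2 * M + 2 * (K * M) with hM'
  have hdiff : ∀ (k : Fin n) (i : Fin 3) (j : ℕ) (t : ℝ), 0 < t →
      sq (fun s x => dv k i (apx_U (u j) s) x - dv k i (u j s) x) ≤ 1 / t * a j + t * M' := by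
    intro k i j t ht
    have e1 : ∀ s x, dv k i (fun x => apx_U (u j) s x - u j s x) x =
        dv k i (apx_U (u j) s) x - dv k i (u j s) x := by
      intro s x
      unfold dv
      rw [fderiv_fun_sub ((hU j s).1.differentiable (by simp) x)
        ((hu j s).1.differentiable (by simp) x)]
      rfl
    have e2 : ∀ s x, dv k i (dv k i (fun x => apx_U (u j) s x - u j s x)) x =
        dv k i (dv k i (apx_U (u j) s)) x - dv k i (dv k i (u j s)) x := by
      intro s x
      have : dv k i (fun x => apx_U (u j) s x - u j s x) =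
          fun x => dv k i (apx_U (u j) s) x - dv k i (u j s) x := funext fun x => e1 s x
      rw [this]
      have d1 := ((hU j s).dv k i).1.differentiable (by simp) x
      have d2 := ((hu j s).dv k i).1.differentiable (by simp) x
      change fderiv ℝ (fun x => dv k i (apx_U (u j) s) x - dv k i (u j s) x) x
        (Pi.single k (Pi.single i 1)) = _
      rw [fderiv_fun_sub d1 d2]
      rfl
    have hCS : ∀ s, apx_CS (fun x => apx_U (u j) s x - u j s x) := fun s => (hU j s).sub (hu j s)
    have b1 : sq (fun s x => apx_U (u j) s x - u j s x) ≤ a j := by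
      have h3 : sq (fun s x => apx_U (u j) s x - u j s x) ≤
          2 * sq (fun s x => apx_U (u j) s x - φ s x) +
          2 * sq (fun s x => -(u j s x - φ s x)) := by
        apply apx_tri (fun s x => apx_U (u j) s x - φ s x) (fun s x => -(u j s x - φ s x))
        · intro s
          exact (hU j s).mem.sub (hGr.lp s)
        · intro s
          exact (hmφ j s).neg
        · intro s
          filter_upwards with x
          ring
      have h4 : sq (fun s x => -(u j s x - φ s x)) = sq (fun s x => u j s x - φ s x) := by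
        unfold sq
        simp only [neg_sq]
      rw [h4] at h3
      simp only [a]
      linarith
    have b2 : sq (fun s => dv k i (dv k i (fun x => apx_U (u j) s x - u j s x))) ≤ M' := by
      have h3 : sq (fun s => dv k i (dv k i (fun x => apx_U (u j) s x - u j s x))) ≤
          2 * sq (fun s => dv k i (dv k i (apx_U (u j) s))) +
          2 * sq (fun s x => -dv k i (dv k i (u j s)) x) := by
        apply apx_tri (fun s => dv k i (dv k i (apx_U (u j) s)))
          (fun s x => -dv k i (dv k i (u j s)) x)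
        · intro s
          exact (((hU j s).dv k i).dv k i).mem
        · intro s
          exact (((hu j s).dv k i).dv k i).mem.neg
        · intro s
          filter_upwards with x
          rw [e2 s x]
          ring
      have h4 : sq (fun s x => -dv k i (dv k i (u j s)) x) =
          sq (fun s => dv k i (dv k i (u j s))) := by
        unfold sq
        simp only [neg_sq]
      rw [h4] at h3
      have h5 := (apx_dd_le (apx_U (u j)) k i k i).trans (hddU j)
      have h6 := (apx_dd_le (u j) k i k i).trans (hM j)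
      rw [hM']
      linarith
    have b3 : sq (fun s x => dv k i (apx_U (u j) s) x - dv k i (u j s) x) ≤
        1 / t * sq (fun s x => apx_U (u j) s x - u j s x) +
        t * sq (fun s => dv k i (dv k i (fun x => apx_U (u j) s x - u j s x))) := by
      unfold sq
      rw [Finset.mul_sum, Finset.mul_sum, ← Finset.sum_add_distrib]
      apply Finset.sum_le_sum
      intro s _
      have := apx_interp (hCS s) k i t ht
      simp only [e1] at this
      exact this
    refine b3.trans (add_le_add ?_ ?_)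
    · exact mul_le_mul_of_nonneg_left b1 (by positivity)
    · exact mul_le_mul_of_nonneg_left b2 ht.le
  have tdiff : ∀ (k : Fin n) (i : Fin 3), Tendsto
      (fun j => sq (fun s x => dv k i (apx_U (u j) s) x - dv k i (u j s) x)) atTop (nhds 0) := by
    intro k i
    let t : ℕ → ℝ := fun j => Real.sqrt (a j) + 1 / ((j : ℝ) + 1)
    have ht0 : ∀ j, 0 < t j := fun j => by
      simp only [t]
      positivity
    have tt : Tendsto t atTop (nhds 0) := by
      have h3 : Tendsto (fun j => Real.sqrt (a j)) atTop (nhds 0) := by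
        have := ta.sqrt
        simpa using this
      have h4 := h3.add (tendsto_one_div_add_atTop_nhds_zero_nat (𝕜 := ℝ))
      rw [add_zero] at h4
      exact h4
    have hbd : ∀ j, sq (fun s x => dv k i (apx_U (u j) s) x - dv k i (u j s) x) ≤
        Real.sqrt (a j) + t j * M' := by
      intro j
      refine (hdiff k i j (t j) (ht0 j)).trans (add_le_add ?_ le_rfl)
      rw [one_div, inv_mul_le_iff₀ (ht0 j)]
      have h5 : Real.sqrt (a j) ≤ t j := by
        simp only [t]
        have : 0 ≤ 1 / ((j : ℝ) + 1) := by positivity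
        linarith
      calc a j = Real.sqrt (a j) * Real.sqrt (a j) := (Real.mul_self_sqrt (ha0 j)).symm
        _ ≤ t j * Real.sqrt (a j) := mul_le_mul_of_nonneg_right h5 (Real.sqrt_nonneg _)
    refine squeeze_zero (fun j => apx_sq_nonneg _) hbd ?_
    have h3 : Tendsto (fun j => Real.sqrt (a j)) atTop (nhds 0) := by
      have := ta.sqrt
      simpa using this
    have h4 := h3.add (tt.mul_const M')
    rw [zero_mul, add_zero] at h4
    exact h4
  refine ⟨fun j => apx_U (u j), fun j => ⟨fun s => hU j s, apx_U_anti (u j)⟩, t0, ?_,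
    ⟨K * M, hddU⟩, ?_⟩
  · intro k i
    have hbd : ∀ j, sq (fun s x => dv k i (apx_U (u j) s) x - G k i s x) ≤
        2 * sq (fun s x => dv k i (apx_U (u j) s) x - dv k i (u j s) x) +
        2 * sq (fun s x => dv k i (u j s) x - G k i s x) := by
      intro j
      apply apx_tri (fun s x => dv k i (apx_U (u j) s) x - dv k i (u j s) x)
        (fun s x => dv k i (u j s) x - G k i s x)
      · intro s
        exact ((hU j s).dv k i).mem.sub ((hu j s).dv k i).mem
      · intro s
        exact ((hu j s).dv k i).mem.sub (hGr.lpG k i s)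
      · intro s
        filter_upwards with x
        ring
    refine squeeze_zero (fun j => apx_sq_nonneg _) hbd ?_
    have := ((tdiff k i).const_mul 2).add ((h1 k i).const_mul 2)
    simpa using this
  · have hr := apxm_res hA1 hA2 hI X Z E φ G S u hGr.lp hGr.lpG hS hu h0 h1 h2 he
    refine squeeze_zero (fun j => apx_sq_nonneg _) (fun j => apxm_res_U hI X Z E (u j) (hu j)) ?_
    simpa using hr.const_mul (n.factorial : ℝ)

end Pool.Agent.Helper95.PW
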